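import Pool.Agent.BLP.StmtsK

/-!
# Squad BLP, row K_MPR (helper44): the transformations preserve the law
-/

namespace Pool.Agent.BLP.H44

open MeasureTheory ProbabilityTheory Filter Topology Finset
open scoped ENNReal

noncomputable section

variable {Ω : Type} [MeasurableSpace Ω] {P : Measure Ω} {B : Ω → Env}

theorem memLp (hB : IsBM P B) (r : ℤ) (t : ℝ) : MemLp (fun ω => B ω r t) 2 P :=
  (hB.gauss.hasGaussianLaw_eval (r, t)).memLp_two

theorem integ (hB : IsBM P B) (r : ℤ) (t : ℝ) : Integrable (fun ω => B ω r t) P :=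
  haveI := hB.gauss.isProbabilityMeasure
  (memLp hB r t).integrable one_le_two

theorem integ2 (hB : IsBM P B) (r : ℤ) (s : ℝ) (r' : ℤ) (t : ℝ) :
    Integrable (fun ω => B ω r s * B ω r' t) P :=
  (memLp hB r s).integrable_mul (memLp hB r' t)

theorem integ3 (hB : IsBM P B) (r : ℤ) (s : ℝ) (r' : ℤ) (t : ℝ) (q : ℤ) (u : ℝ) (q' : ℤ)
    (v : ℝ) : Integrable (fun ω => B ω r s * B ω r' t - B ω q u * B ω q' v) P :=
  (integ2 hB r s r' t).sub (integ2 hB q u q' v)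

theorem aem (hB : IsBM P B) : AEMeasurable (fun ω (i : ℤ × ℚ) => B ω i.1 i.2) P :=
  aemeasurable_pi_iff.2 fun i => hB.gauss.aemeasurable (i.1, (i.2 : ℝ))

theorem gX (hB : IsBM P B) : IsGaussianProcess (fun (i : ℤ × ℚ) (ω : Ω) => B ω i.1 i.2) P :=
  hB.gauss.comp_right (fun i : ℤ × ℚ => ((i.1, (i.2 : ℝ)) : ℤ × ℝ))

/-- the general step -/
theorem step (hG : GuqStmt) (hB : IsBM P B) (T : XX → XX) (hT : Measurable T)
    (hg : IsGaussianProcess (fun (i : ℤ × ℚ) (ω : Ω) => T (fun i : ℤ × ℚ => B ω i.1 i.2) i) P)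
    (hm : ∀ i, ∫ ω, T (fun i : ℤ × ℚ => B ω i.1 i.2) i ∂P = 0)
    (hc : ∀ i j, ∫ ω, T (fun i : ℤ × ℚ => B ω i.1 i.2) i *
      T (fun i : ℤ × ℚ => B ω i.1 i.2) j ∂P = ∫ ω, B ω i.1 i.2 * B ω j.1 j.2 ∂P) :
    MeasurePreserving T (P.map fun ω (i : ℤ × ℚ) => B ω i.1 i.2)
      (P.map fun ω (i : ℤ × ℚ) => B ω i.1 i.2) := by
  refine ⟨hT, ?_⟩
  rw [AEMeasurable.map_map_of_aemeasurable hT.aemeasurable (aem hB)]
  exact hG (ℤ × ℚ) Ω Ω P P (fun i ω => T (fun i : ℤ × ℚ => B ω i.1 i.2) i)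
    (fun i ω => B ω i.1 i.2) hg (gX hB) hm (fun i => hB.mean i.1 i.2) hc

theorem mpr : MprStmt := by
  intro hG Ω _ P B hB
  classical
  haveI := hB.gauss.isProbabilityMeasure
  refine ⟨aem hB, fun a => ?_, fun k => ?_, fun l hl => ?_⟩
  · refine step hG hB _ ?_ ?_ ?_ ?_
    · exact measurable_pi_iff.2 fun i =>
        (measurable_pi_apply (i.1, i.2 + a)).sub (measurable_pi_apply (i.1, a))
    · refine hB.gauss.of_isGaussianProcess fun i => ⟨{(i.1, ((i.2 + a : ℚ) : ℝ)), (i.1, (a : ℝ))},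
        ContinuousLinearMap.proj (R := ℝ) (φ := fun _ => ℝ)
          ⟨(i.1, ((i.2 + a : ℚ) : ℝ)), by simp⟩ -
        ContinuousLinearMap.proj (R := ℝ) (φ := fun _ => ℝ) ⟨(i.1, (a : ℝ)), by simp⟩,
        fun ω => rfl⟩
    · intro i
      show ∫ ω, (B ω i.1 ((i.2 + a : ℚ) : ℝ) - B ω i.1 (a : ℝ)) ∂P = 0
      rw [integral_sub (integ hB _ _) (integ hB _ _), hB.mean, hB.mean, sub_zero]
    · intro i j
      show ∫ ω, (B ω i.1 ((i.2 + a : ℚ) : ℝ) - B ω i.1 (a : ℝ)) *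
        (B ω j.1 ((j.2 + a : ℚ) : ℝ) - B ω j.1 (a : ℝ)) ∂P = _
      have h1 : ∀ ω, (B ω i.1 ((i.2 + a : ℚ) : ℝ) - B ω i.1 (a : ℝ)) *
          (B ω j.1 ((j.2 + a : ℚ) : ℝ) - B ω j.1 (a : ℝ)) =
          (B ω i.1 ((i.2 + a : ℚ) : ℝ) * B ω j.1 ((j.2 + a : ℚ) : ℝ) -
            B ω i.1 ((i.2 + a : ℚ) : ℝ) * B ω j.1 (a : ℝ)) -
          (B ω i.1 (a : ℝ) * B ω j.1 ((j.2 + a : ℚ) : ℝ) - B ω i.1 (a : ℝ) * B ω j.1 (a : ℝ)) :=
        fun ω => by ring
      simp only [h1]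
      rw [integral_sub (integ3 hB _ _ _ _ _ _ _ _) (integ3 hB _ _ _ _ _ _ _ _),
        integral_sub (integ2 hB _ _ _ _) (integ2 hB _ _ _ _),
        integral_sub (integ2 hB _ _ _ _) (integ2 hB _ _ _ _)]
      simp only [hB.cov]
      by_cases h : i.1 = j.1
      · simp only [if_pos h]
        push_cast
        have e1 : (i.2 : ℝ) + a - (j.2 + a) = i.2 - j.2 := by ring
        have e2 : (i.2 : ℝ) + a - a = i.2 := by ring
        have e3 : (a : ℝ) - (j.2 + a) = -j.2 := by ring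
        rw [e1, e2, e3, abs_neg, sub_self, abs_zero]
        ring
      · simp only [if_neg h]
        ring
  · refine step hG hB _ ?_ ?_ ?_ ?_
    · exact measurable_pi_iff.2 fun i => measurable_pi_apply (i.1 + k, i.2)
    · exact hB.gauss.comp_right (fun i : ℤ × ℚ => ((i.1 + k, (i.2 : ℝ)) : ℤ × ℝ))
    · intro i
      exact hB.mean (i.1 + k) i.2
    · intro i j
      show ∫ ω, B ω (i.1 + k) i.2 * B ω (j.1 + k) j.2 ∂P = _
      rw [hB.cov, hB.cov]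
      by_cases h : i.1 = j.1
      · rw [if_pos h, if_pos (by rw [h])]
      · rw [if_neg h, if_neg (fun h' => h (add_right_cancel h'))]
  · have hl' : (0 : ℝ) < l := by exact_mod_cast hl
    have hs : Real.sqrt (l : ℝ) * Real.sqrt (l : ℝ) = l := Real.mul_self_sqrt hl'.le
    have hs0 : Real.sqrt (l : ℝ) ≠ 0 := (Real.sqrt_pos.2 hl').ne'
    refine step hG hB _ ?_ ?_ ?_ ?_
    · exact measurable_pi_iff.2 fun i =>
        (measurable_pi_apply (i.1, l * i.2)).div_const _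
    · refine hB.gauss.of_isGaussianProcess fun i => ⟨{(i.1, ((l * i.2 : ℚ) : ℝ))},
        (Real.sqrt (l : ℝ))⁻¹ • ContinuousLinearMap.proj (R := ℝ) (φ := fun _ => ℝ)
          ⟨(i.1, ((l * i.2 : ℚ) : ℝ)), by simp⟩,
        fun ω => ?_⟩
      show B ω i.1 ((l * i.2 : ℚ) : ℝ) / Real.sqrt (l : ℝ) =
        (Real.sqrt (l : ℝ))⁻¹ * B ω i.1 ((l * i.2 : ℚ) : ℝ)
      rw [div_eq_mul_inv, mul_comm]
    · intro i
      show ∫ ω, B ω i.1 ((l * i.2 : ℚ) : ℝ) / Real.sqrt (l : ℝ) ∂P = 0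
      rw [integral_div, hB.mean, zero_div]
    · intro i j
      show ∫ ω, B ω i.1 ((l * i.2 : ℚ) : ℝ) / Real.sqrt (l : ℝ) *
        (B ω j.1 ((l * j.2 : ℚ) : ℝ) / Real.sqrt (l : ℝ)) ∂P = _
      have h1 : ∀ ω, B ω i.1 ((l * i.2 : ℚ) : ℝ) / Real.sqrt (l : ℝ) *
          (B ω j.1 ((l * j.2 : ℚ) : ℝ) / Real.sqrt (l : ℝ)) =
          B ω i.1 ((l * i.2 : ℚ) : ℝ) * B ω j.1 ((l * j.2 : ℚ) : ℝ) / l := by
        intro ω
        rw [div_mul_div_comm, hs]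
      simp only [h1]
      rw [integral_div, hB.cov, hB.cov]
      by_cases h : i.1 = j.1
      · rw [if_pos h, if_pos h]
        push_cast
        have e1 : (l : ℝ) * i.2 - l * j.2 = l * (i.2 - j.2) := by ring
        rw [e1, abs_mul, abs_mul, abs_mul, abs_of_pos hl']
        field_simp
      · rw [if_neg h, if_neg h, zero_div]

end

end Pool.Agent.BLP.H44
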