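import Pool.Agent.BLP.StmtsE

/-!
# Squad BLP, row E_EBG (helper44): Chebyshev for the increments of one level
-/

namespace Pool.Agent.BLP.H44

open MeasureTheory ProbabilityTheory Filter Topology Finset
open scoped ENNReal

noncomputable section

theorem gauss_tail (v : NNReal) {c : ℝ} (hc : 0 < c) :
    gaussianReal 0 v {z : ℝ | c ≤ |z|} ≤ ENNReal.ofReal (v / c ^ 2) := by
  have h := meas_ge_le_variance_div_sq (μ := gaussianReal 0 v) (X := id)
    (memLp_id_gaussianReal 2) hc
  rw [variance_id_gaussianReal] at h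
  have h0 : ∫ x, id x ∂(gaussianReal 0 v) = 0 := integral_id_gaussianReal
  rw [h0] at h
  simpa using h

theorem e_ebg : EbgStmt := by
  intro X _ μ B hB A η δ hA hη hδ
  obtain ⟨M₀, hM₀⟩ := exists_nat_gt (A / (η ^ 2 * δ))
  refine ⟨M₀ + 1, fun M hM r s t hst hts => ?_⟩
  have hMp : (0 : ℝ) < M := by
    have : 0 < M := by omega
    exact_mod_cast this
  have hMM : A / (η ^ 2 * δ) < M := by
    refine hM₀.trans ?_
    exact_mod_cast (by omega : M₀ < M)
  have hmea : Measurable fun x => B x r t - B x r s := (hB.mea r t).sub (hB.mea r s)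
  have h1 : μ {x | η * M < |B x r t - B x r s|} ≤
      (μ.map fun x => B x r t - B x r s) {z : ℝ | η * M ≤ |z|} := by
    rw [Measure.map_apply hmea (measurableSet_le measurable_const (by fun_prop))]
    refine measure_mono fun x hx => ?_
    have hx' : η * M < |B x r t - B x r s| := hx
    exact hx'.le
  rw [hB.law r s t hst] at h1
  refine h1.trans ((gauss_tail _ (mul_pos hη hMp)).trans (ENNReal.ofReal_le_ofReal ?_))
  rw [Real.coe_toNNReal _ (sub_nonneg.2 hst), div_le_iff₀ (by positivity)]
  refine hts.trans ?_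
  rw [div_lt_iff₀ (by positivity)] at hMM
  nlinarith [mul_le_mul_of_nonneg_right hMM.le hMp.le]

end

end Pool.Agent.BLP.H44
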